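import Pool.Agent.N375.AV.D
import Pool.Agent.N35.MK.Base

/-!
# Montgomery's inequality `H_k(1/k)` for all primes near the values of additive functions and their compositions

Let `F = f_1 ∘ ⋯ ∘ f_r` be a composition of functions dominated by the largest prime factor: for example additive functions
`f` with `f (q^j) ≤ C q^j` at the prime powers, with different values at different large primes (the sum of the prime factors),
the largest prime factor itself, and Kempner's function. Let `k ≥ 4`, `ε > 0`, `t` real, `α > 0`, `1 ≤ d < k / 2` and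
`κ < 1 - 2 d / k`. For all `m ≤ M` but `K M exp (- c (log M)^(1 / (r + 1)))`, for ALL primes `q` with `|q - α F(m)^d| ≤ F(m)^κ`
the inequality of `H_k(1/k)`, with the constant `1`, holds at `t + b / q` for ALL `1 ≤ b < q`, all real `ξ` and all
`N ≥ (2 q)^(1 + 2 / k)`. For example `q` may be the largest prime factor of `m`. The values of `F` are taken with very large
multiplicities and `F(m)` is in general much smaller than `m`, of the size of a power of `m` with an exponent which has a
distribution function.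

Proof. The preimage of a set with at most `K X exp (- c (log X)^β)` elements up to `X` under a function dominated by the largest
prime factor has at most `K' X exp (- c' (log X)^(β / (1 + β)))` elements (`N375/AV` of helper375). For all but
`K X^(2/k+δ)` primes `q ≤ X` the inequality holds for ALL `N` at once (`N35/MK/Base`, from the starting theorem
`AlmostAllPrimeModuli` of this problem, which treats one `N` and one dyadic interval).
-/

set_option autoImplicit false

namespace Pool.Agent.Results.MP_3b0be2_nt.AdditiveValues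

open Finset
open Pool.Agent.N733.TG (Expanding expanding_pow)
open Pool.Agent.N375.AV (PD comp good_nat pd_additive pd_largest pd_kempner)
open Pool.Agent.N35.MK (HK count)

/-- **Montgomery's inequality near the values of compositions of additive functions.** Let `k ≥ 4`, `ε > 0`, `t` real, let
`F = f_1 ∘ ⋯ ∘ f_r`, `f_i` dominated by the largest prime factor. Let `G` have steps `≥ a > 0` and growth at most `v^d`, let
`κ ≥ 0` and `2 d / k + κ < 1`. For all `m ≤ M` but `K M exp (- c (log M)^(1 / (r + 1)))` ALL primes `q` with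
`|q - G (F m)| ≤ F(m)^κ` have the property `HK`: the inequality of `H_k(1/k)` with the constant `1` holds at `t + b / q` for all
`1 ≤ b < q`, all real `ξ` and all `N ≥ (2 q)^(1 + 2 / k)`. The additive functions with `f (q^j) ≤ C q^j` which are injective at
the large primes, the largest prime factor and Kempner's function are examples of such functions `f_i`, and `α v^d` with
`α > 0`, `d ≥ 1` is an example of `G`. -/
theorem result :
    (∀ k : ℕ, 4 ≤ k → ∀ ε t : ℝ, 0 < ε → ∀ fs : List (ℕ → ℕ), (∀ f ∈ fs, PD f) →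
      ∀ (G : ℕ → ℝ) (d : ℝ), Expanding G d → ∀ κ : ℝ, 0 ≤ κ → 2 * d / k + κ < 1 →
      ∃ c K : ℝ, 0 < c ∧ ∀ M : ℕ, 1 ≤ M →
      ({m : ℕ | 1 ≤ m ∧ m ≤ M ∧ ¬ ∀ q : ℕ, q.Prime → |(q : ℝ) - G (comp fs m)| ≤ (comp fs m : ℝ) ^ κ →
        HK k ε t q}.ncard : ℝ) ≤ K * M * Real.exp (-(c * Real.log M ^ ((1 : ℝ) / (fs.length + 1))))) ∧
    (∀ f : ℕ → ℕ, (∀ a b : ℕ, Nat.Coprime a b → f (a * b) = f a + f b) →
      (∃ C : ℕ, ∀ q j : ℕ, q.Prime → 1 ≤ j → f (q ^ j) ≤ C * q ^ j) →
      (∃ P : ℕ, ∀ p q : ℕ, p.Prime → q.Prime → P ≤ p → P ≤ q → f p = f q → p = q) → PD f) ∧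
    (PD (fun n => n.primeFactors.sup id) ∧ PD (fun n => sInf {k : ℕ | n ∣ k.factorial})) ∧
    ∀ α d : ℝ, 0 < α → 1 ≤ d → Expanding (fun v => α * (v : ℝ) ^ d) d := by
  refine ⟨fun k hk ε t hε fs hfs G d hG κ hκ h1 => ?_, fun f h2 h3 h4 => pd_additive h2 h3 h4, ⟨pd_largest, pd_kempner⟩,
    fun α d hα hd => expanding_pow hα hd⟩
  have e : d * (2 / (k : ℝ)) = 2 * d / k := by ring
  obtain ⟨c, K, hc, hcK⟩ := good_nat Nat.Prime (HK k ε t) fs hfs hG (s := 2 / (k : ℝ)) (κ := κ) (by positivity) hκ
    (by rw [e]; exact h1) (count hk hε t)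
  refine ⟨c, K, hc, fun M hM => le_trans (le_of_eq ?_) (hcK M hM)⟩
  congr 2
  ext m
  simp only [Set.mem_ofPred_eq]
  have : (∀ q : ℕ, q.Prime → |(q : ℝ) - G (comp fs m)| ≤ (comp fs m : ℝ) ^ κ → HK k ε t q) ↔
      ∀ q : ℕ, 1 ≤ q → q.Prime → |(q : ℝ) - G (comp fs m)| ≤ (comp fs m : ℝ) ^ κ → HK k ε t q :=
    ⟨fun h q _ => h q, fun h q hq => h q hq.one_lt.le hq⟩
  rw [this]

end Pool.Agent.Results.MP_3b0be2_nt.AdditiveValues
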