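import Pool.Agent.N755.WS.Dim

/-!
# Montgomery's conjecture on Weyl sums with bounded weights, almost every leading coefficient

For arbitrary complex weights `c n` with `|c n| ≤ 1` (for example `c n = e(g n)` with any real function `g`, so
arbitrary lower order terms, or characters, or the indicator function of any set) and every `k ≥ 3`, for almost
every real `t`, the sums `∑_{n ≤ N} c n e(t n^k + ξ n)` are `O(N^θ)` for every `θ > 2/3`, uniformly in the linear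
coefficient `ξ`.  So for `k ≥ 4` the inequality of `H_k(1/k)` holds at almost every `t` without the factor `N^ε`,
and for `k ≥ 3` the inequality of `H_k(1/3)` holds with it.  The exceptional sets have Hausdorff dimension less
than one; it is at most `7/8` for `k = 4` and `4/5` for `k = 5`.

Proof. Let `J_s(N)` be the number of solutions of `∑ x_i = ∑ y_i`, `∑ x_i^k = ∑ y_i^k`, `1 ≤ x_i, y_i ≤ N`, `i ≤ s`.
For every `k ≥ 2` one has `J_3(N) ≪ N^(3 + δ)`: given `x_1, y_2, y_3` put `c = y_2 + y_3 - x_1`; then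
`y_2^k + y_3^k - x_1^k - c^k = x_2^k + x_3^k - y_1^k - c^k` is divisible by `(x_2 - y_1) (x_3 - y_1)`, so that
unless it vanishes these factors are divisors of a given number, and the cases in which it vanishes are diagonal.
Hua's differencing step (helper102) then gives `J_s ≪ N^(2s - m + δ)` for `s = 1 + 2^i`, `m = i + 2`, `1 ≤ i < k`.
The `2s`-th moment over `t` of the supremum over `ξ` of the weighted sum is `O(N J_s(N))`, a maximal inequality for
incomplete sums shows that the set of `t` with a large supremum is locally constant at the scale `N^(-k)`, and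
coverings at this scale bound the Hausdorff dimension.
-/

set_option autoImplicit false

open MeasureTheory

namespace Pool.Agent.Results.MP_3b0be2_nt.BoundedWeights

/-- The inequality of `H_k(η)` for the sum with the weights `c n` and the leading coefficient `t`, all `N`, all
linear coefficients `ξ` and all approximations `a/q` of `t`, with `ε` and the constant `C`. -/
def Bound (c : ℕ → ℂ) (k : ℕ) (η ε C t : ℝ) : Prop :=
  ∀ N : ℕ, 2 ≤ N → ∀ ξ : ℝ, ∀ a q : ℕ, 1 ≤ a → a < q → q ≤ N → Nat.Coprime a q →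
    |t - (a : ℝ) / (q : ℝ)| ≤ 1 / (q : ℝ) ^ 2 →
    ‖∑ n ∈ Finset.Icc 1 N, c n *
        Complex.exp (2 * (Real.pi : ℂ) * Complex.I * (((t * (n : ℝ) ^ k + ξ * (n : ℝ)) : ℝ) : ℂ))‖ ≤
      C * (N : ℝ) ^ (1 + ε) *
        (1 / (q : ℝ) + 1 / (N : ℝ) + (q : ℝ) / (N : ℝ) ^ k) ^ η

/-- Let `k ≥ 3` and let `c n` be any complex numbers with `|c n| ≤ 1`.
(1) For almost every real `t`, for every `θ > 2/3`, the weighted sum is at most `C N^θ` for all `N` and `ξ`.
(2) For almost every real `t`, for all `η ≥ 0` and all `ε > η - 1/3` the inequality of `H_k(η)` for the weighted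
sum holds at `t`, for all `N`, `ξ`, `a`, `q`, with some `C`; for `k ≥ 4` this includes `η = 1/k` and `ε = 0`.
(3) For `θ > 0` the set of `t` for which the bound of (1) holds for no `C` has Hausdorff dimension at most
`1 - (i + 1 - (2^(i+1) + 2) (1 - θ)) / k`, for every `1 ≤ i < k`.
(4) For `η ≥ 0` and `ε > η - 1` the set of `t` for which the inequality of (2) holds for no `C` has Hausdorff
dimension at most `1 - (i + 1 - (2^(i+1) + 2) (η - ε)) / k`, for every `1 ≤ i < k`; with `η = 1/k` and `ε = 0`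
this is `7/8` for `k = 4` and `4/5` for `k = 5`, both with `i = 2`. -/
theorem result :
    ∀ c : ℕ → ℂ, (∀ n, ‖c n‖ ≤ 1) → ∀ k : ℕ, 3 ≤ k →
    (∀ᵐ t : ℝ, ∀ θ : ℝ, 2 / 3 < θ → ∃ C : ℝ, ∀ N : ℕ, 1 ≤ N → ∀ ξ : ℝ,
      ‖∑ n ∈ Finset.Icc 1 N, c n *
        Complex.exp (2 * (Real.pi : ℂ) * Complex.I * (((t * (n : ℝ) ^ k + ξ * (n : ℝ)) : ℝ) : ℂ))‖ ≤
        C * (N : ℝ) ^ θ) ∧
    (∀ᵐ t : ℝ, ∀ η ε : ℝ, 0 ≤ η → η - 1 / 3 < ε → ∃ C : ℝ, Bound c k η ε C t) ∧
    (∀ θ : ℝ, 0 < θ → ∀ i : ℕ, 1 ≤ i → i < k →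
      dimH {t : ℝ | ¬ ∃ C : ℝ, ∀ N : ℕ, 1 ≤ N → ∀ ξ : ℝ,
        ‖∑ n ∈ Finset.Icc 1 N, c n *
          Complex.exp (2 * (Real.pi : ℂ) * Complex.I * (((t * (n : ℝ) ^ k + ξ * (n : ℝ)) : ℝ) : ℂ))‖ ≤
          C * (N : ℝ) ^ θ} ≤
        ENNReal.ofReal (1 - ((i : ℝ) + 1 - (2 ^ (i + 1) + 2) * (1 - θ)) / k)) ∧
    (∀ η ε : ℝ, 0 ≤ η → η - 1 < ε → ∀ i : ℕ, 1 ≤ i → i < k →
      dimH {t : ℝ | ¬ ∃ C : ℝ, Bound c k η ε C t} ≤
        ENNReal.ofReal (1 - ((i : ℝ) + 1 - (2 ^ (i + 1) + 2) * (η - ε)) / k)) := by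
  intro c hc k hk
  have key : ∀ η ε t : ℝ, 0 ≤ η → (∃ C : ℝ, ∀ N : ℕ, 1 ≤ N → ∀ ξ : ℝ,
      ‖Pool.Agent.N755.WS.sw c k N t ξ‖ ≤ C * (N : ℝ) ^ (1 - η + ε)) → ∃ C : ℝ, Bound c k η ε C t := by
    rintro η ε t hη ⟨C, hC⟩
    refine ⟨|C|, fun N hN ξ a q _ _ _ _ _ => ?_⟩
    have h1 := hC N (by omega) ξ
    have h2 := Pool.Agent.N755.WS.fac_ge k N q η ε hη (by omega)
    calc _ ≤ C * (N : ℝ) ^ (1 - η + ε) := h1
      _ ≤ |C| * (N : ℝ) ^ (1 - η + ε) := mul_le_mul_of_nonneg_right (le_abs_self C) (by positivity)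
      _ ≤ |C| * ((N : ℝ) ^ (1 + ε) *
        (1 / (q : ℝ) + 1 / (N : ℝ) + (q : ℝ) / (N : ℝ) ^ k) ^ η) :=
        mul_le_mul_of_nonneg_left h2 (abs_nonneg C)
      _ = _ := by ring
  refine ⟨Pool.Agent.N755.WS.ae_all c hc k hk, ?_, fun θ hθ i hi hik =>
    Pool.Agent.N755.WS.dim_hua c hc k i hk hi hik θ hθ, fun η ε hη hε i hi hik => ?_⟩
  · filter_upwards [Pool.Agent.N755.WS.ae_all c hc k hk] with t ht η ε hη hε
    exact key η ε t hη (ht (1 - η + ε) (by linarith))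
  · have h1 : {t : ℝ | ¬ ∃ C : ℝ, Bound c k η ε C t} ⊆ Pool.Agent.N755.WS.Exc c k (1 - η + ε) :=
      fun t ht hC => ht (key η ε t hη hC)
    have h2 := Pool.Agent.N755.WS.dim_hua c hc k i hk hi hik (1 - η + ε) (by linarith)
    have h3 : (1 : ℝ) - (1 - η + ε) = η - ε := by ring
    rw [h3] at h2
    exact (dimH_mono h1).trans h2

end Pool.Agent.Results.MP_3b0be2_nt.BoundedWeights
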