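import Pool.Agent.N790.CM.C
import Pool.Agent.N35.MK.Base

/-!
# Montgomery's inequality `H_k(1/k)` for all primes near all multiples of Carmichael's function

Let `k ≥ 4`, `ε > 0` and let `t` be a real number. For almost all `m` (all `m ≤ M` but `M / (log M)^U`) and EVERY multiple
`w ≤ M^B` of Carmichael's function `λ(m)`, for ALL primes `q` with `|q - G w| ≤ w^κ` the inequality of `H_k(1/k)`, with the
constant `1`, holds at `t + b / q` for ALL `1 ≤ b < q`, all real `ξ` and all `N ≥ (2 q)^(1 + 2 / k)`, if
`B (2 d / k + κ) < 1`. Here `G` has steps bounded below by a positive constant and growth at most `v^d`, for example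
`G(v) = α v^d`. More generally `w` is any common multiple of the values `f(p)`, `p` running through the large primes which
divide `m` exactly once, where `f` takes each positive value at boundedly many primes.

A single `m` has a power of `M` multiples of this kind, and a single `w ≤ M^B` can be a multiple of `λ(m)` for more than
`M^(1 - ε)` numbers `m ≤ M` (popular values). So this does not follow from the number of the exceptional primes. The proof uses
that outside a set of `M / (log M)^U` numbers `m ≤ M` every `w ≤ M^B` is a common multiple for at most `M^ε` of the `m` (tool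
`N790/CM` of helper790), and that for all but `K X^(2/k+δ)` primes `q ≤ X` the inequality holds for ALL `N` at once
(`N35/MK/Base`, from the starting theorem `AlmostAllPrimeModuli` of this problem, which treats one `N` and one dyadic interval).
-/

set_option autoImplicit false

namespace Pool.Agent.Results.MP_3b0be2_nt.CarmichaelMultiples

open Finset
open Pool.Agent.N733.TG (Expanding expanding_pow)
open Pool.Agent.N790.CM (FewTimes Carries keep_good_nat fewTimes_pred pred_dvd_carmichael)
open Pool.Agent.N35.MK (HK count)

/-- **Montgomery's inequality near the multiples of Carmichael's function.** Let `k ≥ 4`, `ε > 0`, `t` real, let `G` have steps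
`≥ a > 0` and growth at most `v^d`, let `κ ≥ 0`, `B ≥ 1`, `B (2 d / k + κ) < 1`, and let `f` take each positive value at most
`T` times at the primes. For every `U` and all large `M`, for all `m ≤ M` but `M / (log M)^U`: for EVERY `w` with
`1 ≤ w ≤ M^B` and `f(p) ∣ w` for all primes `p > exp (√(log M))` which divide `m` exactly once, ALL primes `q` with
`|q - G w| ≤ w^κ` have the property `HK`: the inequality of `H_k(1/k)` with the constant `1` holds at `t + b / q` for all
`1 ≤ b < q`, all real `ξ` and all `N ≥ (2 q)^(1 + 2 / k)`. The function `f(p) = p - 1` takes each value at most once, and every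
multiple of Carmichael's function `λ(m)` is divisible by `p - 1` for all `p ∣ m`; and `α v^d` with `α > 0`, `d ≥ 1` is an
example of `G`. -/
theorem result :
    (∀ k : ℕ, 4 ≤ k → ∀ ε t : ℝ, 0 < ε →
      ∀ (G : ℕ → ℝ) (d : ℝ), Expanding G d → ∀ κ B : ℝ, 0 ≤ κ → 1 ≤ B → B * (2 * d / k + κ) < 1 →
      ∀ (f : ℕ → ℕ) (T : ℕ), FewTimes f T → ∀ U : ℕ, ∃ M₀ : ℕ, ∀ M : ℕ, M₀ ≤ M →
      ({m : ℕ | 1 ≤ m ∧ m ≤ M ∧ ¬ ∀ w : ℕ, 1 ≤ w → (w : ℝ) ≤ (M : ℝ) ^ B →
          Carries f (Real.exp √(Real.log M)) m w →
          ∀ q : ℕ, q.Prime → |(q : ℝ) - G w| ≤ (w : ℝ) ^ κ → HK k ε t q}.ncard : ℝ) ≤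
        M / Real.log M ^ U) ∧
    (FewTimes (fun p => p - 1) 1 ∧
      ∀ (y : ℝ) (m w : ℕ), ArithmeticFunction.carmichael m ∣ w → Carries (fun p => p - 1) y m w) ∧
    ∀ α d : ℝ, 0 < α → 1 ≤ d → Expanding (fun v => α * (v : ℝ) ^ d) d := by
  refine ⟨fun k hk ε t hε G d hG κ B hκ hB h1 => ?_,
    ⟨fewTimes_pred, fun y m w h p hp _ hpm _ => (pred_dvd_carmichael hp hpm).trans h⟩,
    fun α d hα hd => expanding_pow hα hd⟩
  have e : d * (2 / (k : ℝ)) = 2 * d / k := by ring
  refine (keep_good_nat Nat.Prime (HK k ε t) hG (s := 2 / (k : ℝ)) (κ := κ) (by positivity) hκ hB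
    (by rw [e]; exact h1) (count hk hε t)).mono ?_
  intro w _ hw q hq hnear
  exact hw q hq.one_lt.le hq hnear

end Pool.Agent.Results.MP_3b0be2_nt.CarmichaelMultiples
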