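import Pool.Agent.N251.LF.Win
import Pool.Agent.N251.LF.AeExp
import Pool.Agent.Results.MP_3b0be2_nt.AdditiveValues

/-!
# Montgomery's inequality `H_k(1/k)` for ALL primes near generic linear forms

Let `v_i`, `i` in a countable set, be vectors in `ℝ^r`, `O(X^(τ + δ))` of them of norm at most `X` for every `δ > 0`: for
instance `(1, n, …, n^d)` with `τ = 1 / d`, or `(b_1^(n_1), …, b_r^(n_r))`, `b_j > 1`, with `τ = 0`. Let `k ≥ 4`, `ε > 0`, `t`
real and `θ < 1`. For all `ρ` in `ℝ^r` outside a set of Hausdorff dimension at most `r - 1 + (2 / k + τ) / (1 - θ)` and all `c`,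
for all but finitely many `i`, EVERY prime `q` with `|q - ρ · v_i| ≤ c ‖v_i‖^θ` satisfies the inequality of `H_k(1/k)`, with
the constant `1`, at `t + b / q` for ALL `1 ≤ b < q`, all real `ξ` and all `N ≥ (2 q)^(1 + 2 / k)`. The bound for the dimension is
less than `r` if `2 / k + τ + θ < 1`.

For families with exponential growth the same holds for all primes near the values `G(F(m))`, for ALL `m` near the generic
linear form, where `F` is a composition of additive functions and `G` a power, for almost all coefficients.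
-/

set_option autoImplicit false

open MeasureTheory

namespace Pool.Agent.Results.MP_3b0be2_nt.GenericLinearForms

open Pool.Agent.N251.LF (Fam Sq linear_good_nat Slow Fast ae_nat slow_examples)
open Pool.Agent.N733.TG (Expanding expanding_pow)
open Pool.Agent.N375.AV (PD comp pd_additive pd_largest pd_kempner)
open Pool.Agent.N35.MK (HK count)

/-- **Theorem.** (1) all primes near the values of linear forms, outside a set of small Hausdorff dimension; (2) all primes near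
`G (F m)`, for all `m` near generic linear forms; (3) examples of `F` and `G`; (4) examples of families for (1); (5) examples of
families for (2). -/
theorem result :
    (∀ k : ℕ, 4 ≤ k → ∀ ε t : ℝ, 0 < ε → ∀ (r : ℕ) (ι : Type) (v : ι → Fin r → ℝ) (τ θ : ℝ), 0 ≤ τ → θ < 1 → Fam v τ →
      ∃ E : Set (Fin r → ℝ), dimH E ≤ ENNReal.ofReal ((r : ℝ) - 1 + (2 / (k : ℝ) + τ) / (1 - θ)) ∧
        ∀ ρ, ρ ∉ E → ∀ c : ℝ, {i | ¬ ∀ q : ℕ, q.Prime → |(q : ℝ) - ∑ j, ρ j * v i j| ≤ c * ‖v i‖ ^ θ →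
          HK k ε t q}.Finite) ∧
    (∀ k : ℕ, 4 ≤ k → ∀ ε t : ℝ, 0 < ε → ∀ fs : List (ℕ → ℕ), (∀ f ∈ fs, PD f) →
      ∀ (G : ℕ → ℝ) (d : ℝ), Expanding G d → ∀ κ : ℝ, 0 ≤ κ → 2 * d / k + κ < 1 →
      ∀ (r : ℕ) (ι : Type) (v : ι → Fin r → ℝ), Slow v → ∀ᵐ ρ : Fin r → ℝ, ∀ (w : ℝ) (B : ℕ),
      {i | ¬ ∀ m : ℕ, |(m : ℝ) - ∑ j, ρ j * v i j| ≤ w * (1 + Real.log (1 + ‖v i‖)) ^ B →
        ∀ q : ℕ, q.Prime → |(q : ℝ) - G (comp fs m)| ≤ (comp fs m : ℝ) ^ κ → HK k ε t q}.Finite) ∧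
    ((∀ f : ℕ → ℕ, (∀ a b : ℕ, Nat.Coprime a b → f (a * b) = f a + f b) →
      (∃ C : ℕ, ∀ q j : ℕ, q.Prime → 1 ≤ j → f (q ^ j) ≤ C * q ^ j) →
      (∃ P : ℕ, ∀ p q : ℕ, p.Prime → q.Prime → P ≤ p → P ≤ q → f p = f q → p = q) → PD f) ∧
      (PD (fun n => n.primeFactors.sup id) ∧ PD (fun n => sInf {k : ℕ | n ∣ k.factorial})) ∧
      ∀ α d : ℝ, 0 < α → 1 ≤ d → Expanding (fun v => α * (v : ℝ) ^ d) d) ∧
    ((∀ d : ℕ, 1 ≤ d → Fam (fun (n : ℕ) (j : Fin (d + 1)) => (n : ℝ) ^ (j : ℕ)) (1 / d)) ∧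
      (∀ (k : ℕ) (b : Fin k → ℝ), (∀ j, 1 < b j) → Fam (fun (n : Fin k → ℕ) (j : Fin k) => b j ^ n j) 0) ∧
      (∀ (k : ℕ) (a : Fin k → ℝ), (∀ j, 0 < a j) →
        Fam (fun (n : Fin k → ℕ) (j : Fin k) => (n j : ℝ) ^ a j) (∑ j, 1 / a j)) ∧
      ∀ (k : ℕ) (u : Fin k → ℕ → ℝ) (τ : Fin k → ℝ), (∀ j, Sq (u j) (τ j)) →
        Fam (fun (n : Fin k → ℕ) (j : Fin k) => u j (n j)) (∑ j, τ j)) ∧
    (∀ (k : ℕ) (u : Fin k → ℕ → ℝ), (∀ j, Fast (u j)) → Slow (fun (n : Fin k → ℕ) (j : Fin k) => u j (n j))) ∧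
    (∀ b : ℝ, 1 < b → Fast (fun n => b ^ n)) ∧
    ∀ a : ℝ, 0 < a → Fast (fun n => Real.exp ((n : ℝ) ^ a)) := by
  refine ⟨fun k hk ε t hε r ι v τ θ hτ hθ hv => ?_, fun k hk ε t hε fs hfs G d hG κ hκ h1 r ι v hv => ?_,
    ⟨fun f h2 h3 h4 => pd_additive h2 h3 h4, ⟨pd_largest, pd_kempner⟩, fun α d hα hd => expanding_pow hα hd⟩,
    Pool.Agent.N251.LF.examples, slow_examples⟩
  · obtain ⟨E, hE, h⟩ := linear_good_nat Nat.Prime (HK k ε t) v (s := 2 / (k : ℝ)) (τ := τ) (θ := θ) (by positivity) hτ hθ hv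
      (count hk hε t)
    refine ⟨E, hE, fun ρ hρ c => (h ρ hρ c).subset ?_⟩
    intro i hi hcon
    exact hi fun q hq hqn => hcon q hq.one_lt.le hq hqn
  · exact ae_nat (β := (1 : ℝ) / (fs.length + 1)) (by positivity)
      (fun m => ∀ q : ℕ, q.Prime → |(q : ℝ) - G (comp fs m)| ≤ (comp fs m : ℝ) ^ κ → HK k ε t q)
      (AdditiveValues.result.1 k hk ε t hε fs hfs G d hG κ hκ h1) v hv

end Pool.Agent.Results.MP_3b0be2_nt.GenericLinearForms
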